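import Pool.Agent.H69.LQ.Lib
import Pool.Agent.H69.LNN.Targets
import Pool.Agent.H49.LQ.UB
import Pool.Agent.H18.LK.BUA
import Pool.Agent.H66.LK.PLR
import Pool.Agent.H19.LK.BUB
import Pool.Agent.H19.LK.NE
import Pool.Agent.H99.LK.HDY
import Pool.Agent.H65.LK.LA

/-!
# MP_8f7db2_an, board lnn_modules, module BL: the first eigenvalue of the ball
-/

set_option autoImplicit false

open MeasureTheory Metric Set
open scoped ENNReal

open Pool.Agent.H85.LK (E adm lam Ann)
open Pool.Agent.H69.LQ Pool.Agent.H69.LNN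

namespace Pool.Agent.H41.LNN

open Pool.Agent.H1.LK (hmap radial)
open Pool.Agent.H49.LQ (integrable_radial)

theorem moment_ball (N : ℕ) (i : Fin N) :
    ∫ x in ball (0 : E N) 1, x i * Real.exp (-‖x‖ ^ 2) = 0 := by
  rw [← integral_indicator measurableSet_ball]
  set g : E N → ℝ := (ball (0 : E N) 1).indicator (fun x => x i * Real.exp (-‖x‖ ^ 2)) with hg
  have h1 : ∫ x, g (-x) = ∫ x, g x := integral_neg_eq_self g volume
  have h2 : ∀ x, g (-x) = -g x := by
    intro x
    rw [hg]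
    by_cases hx : x ∈ ball (0 : E N) 1
    · have hx' : -x ∈ ball (0 : E N) 1 := by
        rw [mem_ball_zero_iff] at hx ⊢
        rw [norm_neg]
        exact hx
      rw [indicator_of_mem hx, indicator_of_mem hx', norm_neg]
      simp
    · have hx' : -x ∉ ball (0 : E N) 1 := by
        rw [mem_ball_zero_iff] at hx ⊢
        rw [norm_neg]
        exact hx
      rw [indicator_of_notMem hx, indicator_of_notMem hx', neg_zero]
  simp only [h2, integral_neg] at h1
  linarith

theorem pf_BL (hUA : T_UA) (hCR1 : T_CR1) : T_BL := by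
  intro N L hN hFz
  have hN1 : 1 ≤ N := by omega
  have hNR : (3 : ℝ) ≤ N := by exact_mod_cast hN
  have hBUC := Pool.Agent.H99.LK.pf_BUC Pool.Agent.H99.LK.pf_SYM
  constructor
  · have hBUD := Pool.Agent.H1.LK.pf_BUD Pool.Agent.H18.LK.pf_AP Pool.Agent.H19.LK.pf_NE
      (Pool.Agent.H18.LK.pf_BUA Pool.Agent.H66.LK.pf_PLR) Pool.Agent.H19.LK.pf_BUB
      Pool.Agent.H99.LK.pf_HDY hBUC N hN
    refine le_trans ?_ hBUD
    have hne : (adm N (N + 1) (ball (0 : E N) 1)).Nonempty :=
      Pool.Agent.H19.LK.pf_NE N (N + 1) _ hN1 isOpen_ball ⟨0, mem_ball_self one_pos⟩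
    apply le_csInf hne
    intro γ hγ
    obtain ⟨κ, c, hκ, hc, h⟩ := hCR1 N L 1 (by omega) hFz one_pos
    have h1 := h (ball (0 : E N) 1) γ isOpen_ball rfl (by
      rw [symmDiff_self]
      simpa using hκ.le) (fun i => moment_ball N i) hγ
    rw [symmDiff_self] at h1
    simpa using h1
  · apply le_of_forall_pos_le_add
    intro ε hε
    obtain ⟨a, δ, ha, ha1, ha2⟩ := hUA N L ε (by omega) hFz hε
    obtain ⟨hsm, hδ, hδ1, h0, h1⟩ := id ha
    set m : ℝ := (N : ℝ) * (volume : Measure (E N)).real (ball 0 1) with hm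
    have hm0 : 0 < m := by
      have hb : 0 < (volume : Measure (E N)).real (ball 0 1) := by
        rw [Measure.real, ENNReal.toReal_pos_iff]
        exact ⟨measure_ball_pos _ _ one_pos, measure_ball_lt_top⟩
      have : (0 : ℝ) < N := by linarith
      positivity
    set X : ℝ := ∫ x : E N, a ‖x‖ ^ 2 with hX
    set Y : ℝ := ∫ x : E N, deriv a ‖x‖ ^ 2 with hY
    set Z : ℝ := ∫ x : E N, a ‖x‖ ^ 2 / ‖x‖ ^ 2 with hZ
    have eX : X = m * ∫ t in Ioi (0 : ℝ), a t ^ 2 * t ^ (N - 1) :=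
      radial N hN1 (fun t => a t ^ 2)
    have hX0 : 0 < X := by rw [eX]; positivity
    have hda : Continuous (deriv a) := hsm.continuous_deriv (by simp)
    have hac : Continuous a := hsm.continuous
    have hd1 : ∀ t, 1 ≤ t → deriv a t = 0 := by
      intro t ht
      have : a =ᶠ[nhds t] fun _ => 0 := by
        filter_upwards [lt_mem_nhds (show 1 - δ < t by linarith)] with s hs
        exact h1 s hs.le
      rw [this.deriv_eq, deriv_const]
    have hq : Continuous (fun t => a t ^ 2 / t ^ 2) := by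
      rw [continuous_iff_continuousAt]
      intro t
      rcases lt_or_ge t δ with ht | ht
      · have : (fun t => a t ^ 2 / t ^ 2) =ᶠ[nhds t] fun _ => 0 := by
          filter_upwards [gt_mem_nhds ht] with s hs
          rw [h0 s hs.le]; simp
        exact this.continuousAt
      · apply ContinuousAt.div (hac.pow 2).continuousAt (continuous_pow 2).continuousAt
        have : 0 < t := by linarith
        positivity
    have iX : Integrable (fun x : E N => a ‖x‖ ^ 2) :=
      integrable_radial (fun t => a t ^ 2) (hac.pow 2) 1 (fun t ht => by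
        simp [h1 t (by linarith)])
    have iY : Integrable (fun x : E N => deriv a ‖x‖ ^ 2) :=
      integrable_radial (fun t => deriv a t ^ 2) (hda.pow 2) 1 (fun t ht => by
        simp [hd1 t ht])
    have iZ : Integrable (fun x : E N => a ‖x‖ ^ 2 / ‖x‖ ^ 2) :=
      integrable_radial (fun t => a t ^ 2 / t ^ 2) hq 1 (fun t ht => by
        simp [h1 t (by linarith)])
    have hXZ : X ≤ Z := by
      apply integral_mono iX iZ
      intro x
      show a ‖x‖ ^ 2 ≤ a ‖x‖ ^ 2 / ‖x‖ ^ 2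
      rcases le_or_gt ‖x‖ δ with hx | hx
      · rw [h0 _ hx]; simp
      · rcases le_or_gt 1 ‖x‖ with hx1 | hx1
        · rw [h1 _ (by linarith)]; simp
        · have hp : 0 < ‖x‖ := by linarith
          rw [le_div_iff₀ (by positivity)]
          have : ‖x‖ ^ 2 ≤ 1 := by nlinarith
          nlinarith [sq_nonneg (a ‖x‖)]
    have hYZ : Y + ((N : ℝ) - 1) * Z ≤ (L + ε) * X := by
      have e1 : Y + ((N : ℝ) - 1) * Z =
          ∫ x : E N, (deriv a ‖x‖ ^ 2 + ((N : ℝ) - 1) * a ‖x‖ ^ 2 / ‖x‖ ^ 2) := by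
        rw [hY, hZ, ← integral_const_mul, ← integral_add iY (iZ.const_mul _)]
        congr 1
        funext x
        rw [mul_div_assoc]
      rw [e1, radial N hN1 (fun t => deriv a t ^ 2 + ((N : ℝ) - 1) * a t ^ 2 / t ^ 2), eX]
      calc _ ≤ m * ((L + ε) * ∫ t in Ioi (0 : ℝ), a t ^ 2 * t ^ (N - 1)) :=
            mul_le_mul_of_nonneg_left ha2 hm0.le
        _ = _ := by ring
    obtain ⟨g1, g2, g3, g4, g5⟩ := hBUC N a δ 1 0 hN1 ha
    have e3 : (fun x : E N => (1 + inner ℝ (0 : E N) x / ‖x‖) * a ‖x‖) = fun x => a ‖x‖ := by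
      funext x
      simp
    rw [e3] at g1 g2 g3 g5
    have e4 : ∀ x : E N, (1 + inner ℝ (0 : E N) x / ‖x‖) * a ‖x‖ = a ‖x‖ := congrFun e3
    have hLA := Pool.Agent.H65.LK.pf_LA Pool.Agent.H18.LK.pf_AP N (ball (0 : E N) 1)
      (fun x => a ‖x‖) hN1 g1 g2 g3
    have g5' : ∫ x : E N, ‖fderiv ℝ (fun x : E N => a ‖x‖) x‖ ^ 2 = Y := by
      rw [g5]
      simp [hY]
    rw [g5'] at hLA
    have hLA' : lam N 1 (ball (0 : E N) 1) * X ≤ Y := hLA
    have hYX : Y ≤ (L - ((N : ℝ) - 1) + ε) * X := by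
      have : ((N : ℝ) - 1) * X ≤ ((N : ℝ) - 1) * Z := mul_le_mul_of_nonneg_left hXZ (by linarith)
      nlinarith
    exact le_of_mul_le_mul_right (le_trans hLA' hYX) hX0

end Pool.Agent.H41.LNN
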